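import Mathlib

/-!
A commutative ring that is a weak `(n,d)`-ring in the sense of Mahdou for all `n ≥ 2`, `d ≥ 0`
and has infinite small finitistic dimension.

Let `A = ℚ[x_0, x_1, …]`, let `E` be the direct sum of the modules `A / p` over all nonzero `p`
and all natural numbers `n` (infinitely many copies of each), and let `R` be the trivial
square-zero extension of `A` by `E`.

* The only finitely presented ideals of `R` are `0` and `R` (`ideal_trivial_of_fp`): a finite
  generating set of the syzygies of generators of such an ideal `J` involves only finitely many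
  summands of `E`; testing it on a syzygy living in a fresh summand `A / p`, with `p` the `A`-part
  of a generator of `J`, forces the image of `J` in `A` to be `0` or `A`; in the first case
  `J = 0` by the same method, in the second case `J` contains a unit.
* The Koszul complexes of `x_0, …, x_{D-1}` over `R` are exact in degrees `≥ 2`, because each
  `A / p` is a quotient of `A` by a nonzerodivisor. So the truncated Koszul complexes are finite
  free resolutions, and they are minimal, so they have projective dimension `D - 1`.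
-/

set_option autoImplicit false

namespace Pool.Agent.Results.MP_682377_al.WeakNDUnbounded

open CategoryTheory

universe u
/-- `E` is `n`-presented: there is an exact sequence `F_n → ⋯ → F_1 → F_0 → E → 0` of
`R`-modules with every `F_i` finitely generated free (here `F_i = R ^ (r i)`). -/
def NPresented (R : Type u) [CommRing R] (n : ℕ) (E : Type u) [AddCommGroup E] [Module R E] :
    Prop :=
  ∃ (r : ℕ → ℕ) (ε : (Fin (r 0) → R) →ₗ[R] E)
    (d : ∀ i : ℕ, (Fin (r (i + 1)) → R) →ₗ[R] (Fin (r i) → R)),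
    Function.Surjective ε ∧ (1 ≤ n → Function.Exact (d 0) ε) ∧
      ∀ i : ℕ, i + 2 ≤ n → Function.Exact (d (i + 1)) (d i)


/-- `R` is a weak `(n,d)`-ring in the sense of Mahdou: every `n`-presented cyclic `R`-module
`R ⧸ I` has projective dimension at most `d`. -/
def IsMahdouWeak (n d : ℕ) (R : Type u) [CommRing R] : Prop :=
  ∀ I : Ideal R, NPresented R n (R ⧸ I) → HasProjectiveDimensionLE (ModuleCat.of R (R ⧸ I)) d

/-- `M` admits an exact sequence `0 → P_m → ⋯ → P_1 → P_0 → M → 0` for some `m`, with every `P_i`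
a finitely generated projective `R`-module (we put `P_i = 0` for `i > m`). -/
def HasFiniteProjectiveResolution (R : Type u) [CommRing R] (M : ModuleCat.{u} R) : Prop :=
  ∃ (m : ℕ) (P : ℕ → ModuleCat.{u} R) (ε : P 0 →ₗ[R] M) (d : ∀ i : ℕ, P (i + 1) →ₗ[R] P i),
    (∀ i : ℕ, Module.Finite R (P i) ∧ Module.Projective R (P i)) ∧
    (∀ i : ℕ, m < i → Subsingleton (P i)) ∧
    Function.Surjective ε ∧ Function.Exact (d 0) ε ∧
    ∀ i : ℕ, Function.Exact (d (i + 1)) (d i)

/-- The small finitistic dimension `fPD(R)`: the supremum of the projective dimensions of all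
modules having a finite resolution by finitely generated projective modules. -/
noncomputable def fPD (R : Type u) [CommRing R] : WithBot ℕ∞ :=
  ⨆ (M : ModuleCat.{u} R) (_ : HasFiniteProjectiveResolution R M), projectiveDimension M

theorem fp_of_nPresented {R : Type u} [CommRing R] {n : ℕ} (hn : 2 ≤ n) (J : Ideal R)
    (h : NPresented R n (R ⧸ J)) : Module.FinitePresentation R J := by
  obtain ⟨r, ε, d, hε, h0, h1⟩ := h
  have h0 := h0 (by omega)
  have h1 := h1 0 hn
  have hrange : Module.FinitePresentation R (LinearMap.range (d 0)) := by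
    refine Module.finitePresentation_of_surjective (LinearMap.rangeRestrict (d 0))
      (LinearMap.surjective_rangeRestrict _) ?_
    rw [LinearMap.ker_rangeRestrict, LinearMap.exact_iff.1 h1]
    exact Submodule.fg_range _
  have hker : Module.FinitePresentation R (LinearMap.ker ε) := by
    rw [LinearMap.exact_iff.1 h0]; exact hrange
  let φ : ((Fin (r 0) → R) × R) →ₗ[R] (R ⧸ J) :=
    ε.comp (LinearMap.fst R _ _) - (Submodule.mkQ J).comp (LinearMap.snd R _ _)
  let X := LinearMap.ker φ
  have hX : ∀ x : X, ε x.1.1 = Submodule.mkQ J x.1.2 := by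
    intro x
    have := x.2
    rw [LinearMap.mem_ker] at this
    exact sub_eq_zero.1 this
  let g : X →ₗ[R] R := (LinearMap.snd R _ _).comp X.subtype
  let g' : X →ₗ[R] (Fin (r 0) → R) := (LinearMap.fst R _ _).comp X.subtype
  have hg : Function.Surjective g := by
    intro y
    obtain ⟨f, hf⟩ := hε (Submodule.mkQ J y)
    refine ⟨⟨(f, y), ?_⟩, rfl⟩
    rw [LinearMap.mem_ker]
    exact sub_eq_zero.2 hf
  have hg' : Function.Surjective g' := by
    intro f
    obtain ⟨y, hy⟩ := Submodule.mkQ_surjective J (ε f)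
    refine ⟨⟨(f, y), ?_⟩, rfl⟩
    rw [LinearMap.mem_ker]
    exact sub_eq_zero.2 hy.symm
  let e0 : LinearMap.ker ε →ₗ[R] LinearMap.ker g :=
    { toFun := fun k => ⟨⟨(k.1, 0), by
        rw [LinearMap.mem_ker]
        refine sub_eq_zero.2 ?_
        change ε k.1 = Submodule.mkQ J 0
        rw [LinearMap.mem_ker.1 k.2, map_zero]⟩, by
        rw [LinearMap.mem_ker]; rfl⟩
      map_add' := by intro a b; apply Subtype.ext; apply Subtype.ext; simp
      map_smul' := by intro a b; apply Subtype.ext; apply Subtype.ext; simp }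
  have e : LinearMap.ker ε ≃ₗ[R] LinearMap.ker g := by
    refine LinearEquiv.ofBijective e0 ⟨?_, ?_⟩
    · intro a b hab
      have := congrArg (fun z => z.1.1.1) hab
      exact Subtype.ext this
    · rintro ⟨⟨⟨f, y⟩, hx⟩, hy⟩
      have hy0 : y = 0 := hy
      subst hy0
      refine ⟨⟨f, ?_⟩, rfl⟩
      rw [LinearMap.mem_ker]
      have := hX ⟨(f, 0), hx⟩
      simpa using this
  have hkerg : Module.FinitePresentation R (LinearMap.ker g) :=
    Module.FinitePresentation.of_equiv (R := R) (M := LinearMap.ker ε) (N := LinearMap.ker g) e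
  have hXfp : Module.FinitePresentation R X := Module.finitePresentation_of_ker g hg
  let j : J →ₗ[R] X :=
    { toFun := fun a => ⟨(0, a.1), by
        rw [LinearMap.mem_ker]
        refine sub_eq_zero.2 ?_
        change ε 0 = Submodule.mkQ J a.1
        rw [map_zero]
        exact ((Submodule.Quotient.mk_eq_zero J).2 a.2).symm⟩
      map_add' := by intro a b; apply Subtype.ext; simp
      map_smul' := by intro a b; apply Subtype.ext; simp }
  refine Module.finitePresentation_of_projective_of_exact j g' ?_ hg' ?_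
  · intro a b hab
    exact Subtype.ext (congrArg (fun z => z.1.2) hab)
  · intro x
    constructor
    · intro hx
      have h2 := hX x
      have hx' : x.1.1 = 0 := hx
      rw [hx', map_zero] at h2
      refine ⟨⟨x.1.2, (Submodule.Quotient.mk_eq_zero J).1 h2.symm⟩, ?_⟩
      apply Subtype.ext
      exact Prod.ext hx'.symm rfl
    · rintro ⟨a, rfl⟩
      rfl

section
variable (A : Type) [CommRing A] [IsDomain A]

/-- index set of the direct sum -/
abbrev Idx := {p : A // p ≠ 0} × ℕ
/-- the module `E` -/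
abbrev EMod := Π₀ i : Idx A, A ⧸ Ideal.span {(i.1 : A)}
/-- the ring -/
abbrev RR := TrivSqZeroExt A (EMod A)

variable {A}

open scoped Classical in
omit [IsDomain A] in
theorem key (n : ℕ) (u : Fin n → RR A) (t : Finset (Fin n → RR A))
    (hK : ∀ v : Fin n → RR A, ∑ i, v i * u i = 0 → v ∈ Submodule.span (RR A) (t : Set (Fin n → RR A)))
    (p : A) (hp : p ≠ 0) (i0 : Fin n) (hi0 : p ∣ (u i0).fst) :
    ∃ (H : (Fin n → RR A) → A) (w : Fin n → A), ∀ i,
      (if i = i0 then (1 : A) else 0) = ∑ g ∈ t, (g i).fst * H g + p * w i := by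
  -- a fresh index
  obtain ⟨n0, hn0⟩ : ∃ n0 : ℕ, ∀ g ∈ t, ∀ i, ((g i).snd : EMod A) (⟨p, hp⟩, n0) = 0 := by
    let S : Finset (Idx A) := t.biUnion (fun g => Finset.univ.biUnion (fun i => DFinsupp.support ((g i).snd : EMod A)))
    refine ⟨(S.sup (fun j => j.2)) + 1, fun g hg i => ?_⟩
    by_contra hne
    have hmem : ((⟨p, hp⟩, (S.sup (fun j => j.2)) + 1) : Idx A) ∈ S := by
      simp only [S, Finset.mem_biUnion]
      exact ⟨g, hg, i, Finset.mem_univ _, DFinsupp.mem_support_iff.2 hne⟩
    have := Finset.le_sup (f := fun j : Idx A => j.2) hmem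
    exact absurd this (by simp only [not_le]; exact Nat.lt_succ_self _)
  set ι0 : Idx A := (⟨p, hp⟩, n0) with hι0
  let x : EMod A := DFinsupp.single ι0 (1 : A ⧸ Ideal.span {p})
  let v : Fin n → RR A := Pi.single i0 (TrivSqZeroExt.inr x)
  have hv : ∑ i, v i * u i = 0 := by
    rw [Finset.sum_eq_single i0]
    · simp only [v, Pi.single_eq_same]
      have h1 : (u i0).fst • x = 0 := by
        obtain ⟨c, hc⟩ := hi0
        have : (u i0).fst • (1 : A ⧸ Ideal.span {p}) = 0 := by
          rw [← Algebra.algebraMap_eq_smul_one]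
          change Ideal.Quotient.mk (Ideal.span {p}) (u i0).fst = 0
          rw [Ideal.Quotient.eq_zero_iff_mem, hc]
          exact Ideal.mul_mem_right _ _ (Ideal.subset_span rfl)
        rw [← DFinsupp.single_smul, this, DFinsupp.single_zero]
      ext
      · simp
      · simp [h1]
    · intro b _ hb
      simp [v, Pi.single_eq_of_ne hb]
    · simp
  have hvm := hK v hv
  rw [Submodule.mem_span_finset] at hvm
  obtain ⟨c, -, hc⟩ := hvm
  have hcomp : ∀ i, ((v i).snd : EMod A) ι0 = ∑ g ∈ t, (g i).fst • ((c g).snd ι0) := by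
    intro i
    rw [← hc, Finset.sum_apply]
    simp only [Pi.smul_apply, smul_eq_mul]
    rw [TrivSqZeroExt.snd_sum, DFinsupp.finsetSum_apply]
    refine Finset.sum_congr rfl (fun g hg => ?_)
    rw [TrivSqZeroExt.snd_mul, DFinsupp.add_apply, DFinsupp.smul_apply, hn0 g hg i, smul_zero, zero_add,
      op_smul_eq_smul, DFinsupp.smul_apply]
  choose H hH using fun g : (Fin n → RR A) => Ideal.Quotient.mk_surjective ((c g).snd ι0)
  have hw : ∀ i, ∃ w : A, (if i = i0 then (1 : A) else 0) = ∑ g ∈ t, (g i).fst * H g + p * w := by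
    intro i
    have h2 : Ideal.Quotient.mk (Ideal.span {p}) (if i = i0 then (1 : A) else 0) =
        Ideal.Quotient.mk (Ideal.span {p}) (∑ g ∈ t, (g i).fst * H g) := by
      have h3 := hcomp i
      have h4 : ((v i).snd : EMod A) ι0 = Ideal.Quotient.mk (Ideal.span {p}) (if i = i0 then (1 : A) else 0) := by
        by_cases h : i = i0
        · subst h
          simp [v, x]
        · simp [v, h]
      rw [← h4, h3, map_sum]
      refine Finset.sum_congr rfl (fun g hg => ?_)
      rw [map_mul, hH, Algebra.smul_def]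
      rfl
    rw [Ideal.Quotient.eq, Ideal.mem_span_singleton] at h2
    obtain ⟨w, hw⟩ := h2
    exact ⟨w, by rw [← hw]; ring⟩
  choose w hw using hw
  exact ⟨H, w, hw⟩

theorem exists_ann (n : ℕ) (e : Fin n → EMod A) : ∃ p : A, p ≠ 0 ∧ ∀ i, p • e i = 0 := by
  classical
  have h1 : ∀ x : EMod A, ∃ p : A, p ≠ 0 ∧ p • x = 0 := by
    intro x
    refine ⟨∏ j ∈ DFinsupp.support x, (j.1 : A), Finset.prod_ne_zero_iff.2 (fun j _ => j.1.2), ?_⟩
    ext j
    rw [DFinsupp.smul_apply, DFinsupp.zero_apply]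
    by_cases hj : j ∈ DFinsupp.support x
    · rw [← Finset.prod_erase_mul _ _ hj, mul_smul]
      have : (j.1 : A) • x j = 0 := by
        obtain ⟨y, hy⟩ := Ideal.Quotient.mk_surjective (x j)
        rw [← hy, Algebra.smul_def]
        change Ideal.Quotient.mk _ _ * Ideal.Quotient.mk _ _ = 0
        rw [← map_mul, Ideal.Quotient.eq_zero_iff_mem]
        exact Ideal.mul_mem_right _ _ (Ideal.subset_span rfl)
      rw [this, smul_zero]
    · rw [DFinsupp.notMem_support_iff.1 hj, smul_zero]
  choose p hp hp' using fun i => h1 (e i)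
  refine ⟨∏ i, p i, Finset.prod_ne_zero_iff.2 (fun i _ => hp i), fun i => ?_⟩
  rw [← Finset.prod_erase_mul _ _ (Finset.mem_univ i), mul_smul, hp' i, smul_zero]

theorem fp_data {R : Type} [CommRing R] (J : Ideal R) (hJ : Module.FinitePresentation R J) :
    ∃ (n : ℕ) (u : Fin n → R) (t : Finset (Fin n → R)), (∀ i, u i ∈ J) ∧
      (∀ x ∈ J, ∃ v : Fin n → R, x = ∑ i, v i * u i) ∧
      (∀ v : Fin n → R, ∑ i, v i * u i = 0 → v ∈ Submodule.span R (t : Set (Fin n → R))) ∧
      (∀ g ∈ t, ∑ i, g i * u i = 0) := by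
  classical
  obtain ⟨n, f, hf⟩ := Module.Finite.exists_fin' R J
  have hKfg := Module.FinitePresentation.fg_ker f hf
  obtain ⟨t, ht⟩ := hKfg
  let u : Fin n → R := fun i => (f (Pi.single i 1) : J)
  have hfu : ∀ v : Fin n → R, ((f v : J) : R) = ∑ i, v i * u i := by
    intro v
    conv_lhs => rw [← Finset.univ_sum_single v]
    rw [map_sum, Submodule.coe_sum]
    refine Finset.sum_congr rfl (fun i _ => ?_)
    have : (Pi.single i (v i) : Fin n → R) = v i • Pi.single i 1 := by
      rw [← Pi.single_smul', smul_eq_mul, mul_one]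
    rw [this, map_smul]
    rfl
  refine ⟨n, u, t, fun i => (f (Pi.single i 1)).2, fun x hx => ?_, fun v hv => ?_, fun g hg => ?_⟩
  · obtain ⟨v, hv⟩ := hf ⟨x, hx⟩
    refine ⟨v, ?_⟩
    rw [← hfu, hv]
  · rw [ht, LinearMap.mem_ker]
    apply Subtype.ext
    rw [hfu, hv]
    rfl
  · have : g ∈ LinearMap.ker f := by rw [← ht]; exact Submodule.subset_span hg
    rw [LinearMap.mem_ker] at this
    rw [← hfu, this]; rfl

theorem ideal_trivial_of_fp (J : Ideal (RR A)) (hJ : Module.FinitePresentation (RR A) J) :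
    J = ⊥ ∨ J = ⊤ := by
  classical
  obtain ⟨n, u, t, huJ, hJu, hK, ht0⟩ := fp_data J hJ
  by_cases hL : ∀ i, (u i).fst = 0
  · left
    obtain ⟨p, hp, hpe⟩ := exists_ann n (fun i => (u i).snd)
    have hu : ∀ i, u i = 0 := by
      intro i0
      obtain ⟨H, w, hw⟩ := key n u t hK p hp i0 (by rw [hL]; exact dvd_zero _)
      have h1 : (u i0).snd = ∑ i, (if i = i0 then (1 : A) else 0) • (u i).snd := by
        rw [Finset.sum_eq_single i0]
        · rw [if_pos rfl, one_smul]
        · intro b _ hb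
          rw [if_neg hb]
          exact zero_smul A ((u b).snd : EMod A)
        · simp
      have h2 : (u i0).snd = 0 := by
        rw [h1]
        simp_rw [hw, add_smul, mul_comm p, mul_smul, hpe, smul_zero, add_zero, Finset.sum_smul]
        rw [Finset.sum_comm]
        refine Finset.sum_eq_zero (fun g hg => ?_)
        have h3 := congrArg TrivSqZeroExt.snd (ht0 g hg)
        rw [TrivSqZeroExt.snd_sum] at h3
        simp only [TrivSqZeroExt.snd_mul, hL, MulOpposite.op_zero, zero_smul, add_zero, TrivSqZeroExt.snd_zero] at h3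
        simp_rw [mul_comm _ (H g), mul_smul]
        rw [← Finset.smul_sum, h3, smul_zero]
      exact TrivSqZeroExt.ext (hL i0) h2
    rw [eq_bot_iff]
    intro x hx
    obtain ⟨v, hv⟩ := hJu x hx
    simp [hu] at hv
    simp [hv]
  · right
    push Not at hL
    obtain ⟨i0, hi0⟩ := hL
    obtain ⟨H, w, hw⟩ := key n u t hK (u i0).fst hi0 i0 dvd_rfl
    have h1 : (u i0).fst = ∑ i, (if i = i0 then (1 : A) else 0) * (u i).fst := by
      simp
    have h2 : (u i0).fst * 1 = (u i0).fst * ∑ i, w i * (u i).fst := by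
      rw [mul_one]
      nth_rw 1 [h1]
      simp_rw [hw, add_mul, Finset.sum_add_distrib]
      rw [show ∑ x, (∑ g ∈ t, (g x).fst * H g) * (u x).fst = 0 from ?_, zero_add, Finset.mul_sum]
      · simp_rw [mul_assoc]
      · simp_rw [Finset.sum_mul]
        rw [Finset.sum_comm]
        refine Finset.sum_eq_zero (fun g hg => ?_)
        have h3 := congrArg TrivSqZeroExt.fst (ht0 g hg)
        rw [TrivSqZeroExt.fst_sum] at h3
        simp only [TrivSqZeroExt.fst_mul, TrivSqZeroExt.fst_zero] at h3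
        have : ∀ x, (g x).fst * H g * (u x).fst = H g * ((g x).fst * (u x).fst) := fun x => by ring
        simp_rw [this]
        rw [← Finset.mul_sum, h3, mul_zero]
    have h3 : (1 : A) = ∑ i, w i * (u i).fst := mul_left_cancel₀ hi0 h2
    let y : RR A := ∑ i, (TrivSqZeroExt.inl (w i)) * u i
    have hy : y ∈ J := by
      refine Ideal.sum_mem _ (fun i _ => J.mul_mem_left _ (huJ i))
    have hy1 : y.fst = 1 := by
      simp only [y, TrivSqZeroExt.fst_sum, TrivSqZeroExt.fst_mul, TrivSqZeroExt.fst_inl]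
      exact h3.symm
    have hyu : IsUnit y := by
      rw [TrivSqZeroExt.isUnit_iff_isUnit_fst, hy1]
      exact isUnit_one
    exact Ideal.eq_top_of_isUnit_mem _ hy hyu

end

/-- index types: `KJ D (i+1)` indexes the degree `i` part of the Koszul complex on `D` elements,
and `KJ D 0` is empty. -/
def KJ : ℕ → ℕ → Type
  | 0, 0 => Empty
  | 0, 1 => Unit
  | 0, _ + 2 => Empty
  | _ + 1, 0 => Empty
  | D + 1, i + 1 => KJ D (i + 1) ⊕ KJ D i

theorem KJ.finite : ∀ D i, Finite (KJ D i)
  | 0, 0 => inferInstanceAs (Finite Empty)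
  | 0, 1 => inferInstanceAs (Finite Unit)
  | 0, _ + 2 => inferInstanceAs (Finite Empty)
  | _ + 1, 0 => inferInstanceAs (Finite Empty)
  | D + 1, i + 1 => by
      have := KJ.finite D (i+1)
      have := KJ.finite D i
      exact inferInstanceAs (Finite (KJ D (i + 1) ⊕ KJ D i))

instance (D i : ℕ) : Finite (KJ D i) := KJ.finite D i

noncomputable instance (D i : ℕ) : Fintype (KJ D i) := Fintype.ofFinite _

instance KJ.isEmpty_zero : ∀ D, IsEmpty (KJ D 0)
  | 0 => inferInstanceAs (IsEmpty Empty)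
  | _ + 1 => inferInstanceAs (IsEmpty Empty)

theorem KJ.isEmpty : ∀ D i, D + 1 < i → IsEmpty (KJ D i)
  | 0, 0, h => absurd h (by omega)
  | 0, 1, h => absurd h (by omega)
  | 0, _ + 2, _ => inferInstanceAs (IsEmpty Empty)
  | D + 1, 0, h => absurd h (Nat.not_lt_zero _)
  | D + 1, i + 1, h => by
      have := KJ.isEmpty D (i+1) (by omega)
      have := KJ.isEmpty D i (by omega)
      exact inferInstanceAs (IsEmpty (KJ D (i + 1) ⊕ KJ D i))

theorem KJ.nonempty : ∀ D, Nonempty (KJ D (D + 1))
  | 0 => inferInstanceAs (Nonempty Unit)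
  | D + 1 => by
      obtain ⟨k⟩ := KJ.nonempty D
      exact ⟨Sum.inr k⟩

/-- left inclusion -/
def kl {D i : ℕ} : KJ D (i + 1) → KJ (D + 1) (i + 1) := fun k => (Sum.inl k : KJ D (i + 1) ⊕ KJ D i)
/-- right inclusion -/
def kr {D i : ℕ} : KJ D i → KJ (D + 1) (i + 1) := fun k => (Sum.inr k : KJ D (i + 1) ⊕ KJ D i)

/-- pairing -/
def kp {D i : ℕ} {N : Type} (a : KJ D (i + 1) → N) (b : KJ D i → N) : KJ (D + 1) (i + 1) → N :=
  fun k => Sum.elim a b (show KJ D (i + 1) ⊕ KJ D i from k)

theorem kp_l {D i : ℕ} {N : Type} (a : KJ D (i + 1) → N) (b : KJ D i → N) : kp a b ∘ kl = a := rfl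
theorem kp_r {D i : ℕ} {N : Type} (a : KJ D (i + 1) → N) (b : KJ D i → N) : kp a b ∘ kr = b := rfl
theorem kp_l' {D i : ℕ} {N : Type} (a : KJ D (i + 1) → N) (b : KJ D i → N) (k) : kp a b (kl k) = a k := rfl
theorem kp_r' {D i : ℕ} {N : Type} (a : KJ D (i + 1) → N) (b : KJ D i → N) (k) : kp a b (kr k) = b k := rfl

theorem k_cases {D i : ℕ} (k : KJ (D + 1) (i + 1)) : (∃ a, k = kl a) ∨ (∃ b, k = kr b) := by
  rcases (show KJ D (i + 1) ⊕ KJ D i from k) with h | h
  · exact Or.inl ⟨h, rfl⟩
  · exact Or.inr ⟨h, rfl⟩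

theorem k_ext {D i : ℕ} {N : Type} {v w : KJ (D + 1) (i + 1) → N} (h1 : v ∘ kl = w ∘ kl)
    (h2 : v ∘ kr = w ∘ kr) : v = w := by
  funext k
  rcases k_cases k with ⟨a, rfl⟩ | ⟨b, rfl⟩
  · exact congrFun h1 a
  · exact congrFun h2 b

section
variable {B : Type} [CommRing B] (x : ℕ → B) {N : Type} [AddCommGroup N] [Module B N]
  {N' : Type} [AddCommGroup N'] [Module B N']

/-- restriction to the left part -/
def rl (B : Type) [CommRing B] {D i : ℕ} {N : Type} [AddCommGroup N] [Module B N] :
    (KJ (D + 1) (i + 1) → N) →ₗ[B] (KJ D (i + 1) → N) := LinearMap.funLeft B N kl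
/-- restriction to the right part -/
def rr (B : Type) [CommRing B] {D i : ℕ} {N : Type} [AddCommGroup N] [Module B N] :
    (KJ (D + 1) (i + 1) → N) →ₗ[B] (KJ D i → N) := LinearMap.funLeft B N kr
/-- pairing, as a linear map -/
def pp (B : Type) [CommRing B] {D i : ℕ} {N : Type} [AddCommGroup N] [Module B N] :
    ((KJ D (i + 1) → N) × (KJ D i → N)) →ₗ[B] (KJ (D + 1) (i + 1) → N) where
  toFun := fun q => kp q.1 q.2
  map_add' := fun _ _ => k_ext rfl rfl
  map_smul' := fun _ _ => k_ext rfl rfl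

@[simp] theorem rl_pp {D i : ℕ} (q : (KJ D (i + 1) → N) × (KJ D i → N)) : rl B (pp B q) = q.1 := rfl
@[simp] theorem rr_pp {D i : ℕ} (q : (KJ D (i + 1) → N) × (KJ D i → N)) : rr B (pp B q) = q.2 := rfl
theorem pp_ext {D i : ℕ} {v w : KJ (D + 1) (i + 1) → N} (h1 : rl B v = rl B w)
    (h2 : rr B v = rr B w) : v = w := k_ext h1 h2

/-- Koszul differential with coefficients in `N` -/
def kd : ∀ D i, (KJ D (i + 1) → N) →ₗ[B] (KJ D i → N)
  | 0, _ => 0
  | _ + 1, 0 => 0
  | D + 1, i + 1 => (pp B).comp (LinearMap.prod ((kd D (i + 1)).comp (rl B) + x D • rr B)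
      (- (kd D i).comp (rr B)))

theorem kd_zero (i : ℕ) (v : KJ 0 (i + 1) → N) : kd x 0 i v = 0 := rfl

theorem kd_zero' (D : ℕ) (v : KJ D 1 → N) : kd x D 0 v = 0 := by
  funext k
  exact isEmptyElim k

theorem rl_kd (D i : ℕ) (v : KJ (D + 1) (i + 2) → N) :
    rl B (kd x (D + 1) (i + 1) v) = kd x D (i + 1) (rl B v) + x D • rr B v := rfl

theorem rr_kd (D i : ℕ) (v : KJ (D + 1) (i + 2) → N) :
    rr B (kd x (D + 1) (i + 1) v) = - kd x D i (rr B v) := rfl

theorem kd_comp : ∀ (D i : ℕ) (v : KJ D (i + 2) → N), kd x D i (kd x D (i + 1) v) = 0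
  | 0, i, v => rfl
  | D + 1, 0, v => rfl
  | D + 1, i + 1, v => by
      refine pp_ext (B := B) ?_ ?_
      · rw [rl_kd, rl_kd, rr_kd, map_add, map_smul, kd_comp D (i + 1), map_zero, smul_neg]
        abel
      · rw [rr_kd, rr_kd, map_neg, kd_comp D i]; simp

theorem kd_nat (f : N →ₗ[B] N') : ∀ (D i : ℕ) (v : KJ D (i + 1) → N),
    kd x D i (f ∘ v) = f ∘ (kd x D i v)
  | 0, i, v => by
      funext k
      rw [kd_zero, kd_zero]; simp
  | D + 1, 0, v => by
      rw [kd_zero', kd_zero']; funext k; simp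
  | D + 1, i + 1, v => by
      refine pp_ext (B := B) ?_ ?_
      · rw [rl_kd]
        change kd x D (i + 1) (f ∘ (rl B v)) + x D • (f ∘ (rr B v)) = f ∘ (rl B (kd x (D + 1) (i + 1) v))
        rw [rl_kd, kd_nat f D (i + 1)]
        funext k; simp
      · rw [rr_kd]
        change - kd x D i (f ∘ (rr B v)) = f ∘ (rr B (kd x (D + 1) (i + 1) v))
        rw [rr_kd, kd_nat f D i]
        funext k; simp

/-- submodule generated by `x_j N`, `j < D` -/
def SS (N : Type) [AddCommGroup N] [Module B N] : ℕ → Submodule B N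
  | 0 => ⊥
  | D + 1 => SS N D ⊔ LinearMap.range (x D • (LinearMap.id : N →ₗ[B] N))

theorem kd_one_range : ∀ (D : ℕ) (v : KJ D 1 → N), (∃ w, kd x D 1 w = v) ↔ ∀ k, v k ∈ SS x N D
  | 0, v => by
      constructor
      · rintro ⟨w, rfl⟩ k
        simp [kd_zero]
      · intro h
        refine ⟨0, ?_⟩
        rw [map_zero]
        funext k
        exact ((Submodule.mem_bot B).1 (h k)).symm
  | D + 1, v => by
      constructor
      · rintro ⟨w, rfl⟩ k
        rcases k_cases k with ⟨a, rfl⟩ | ⟨b, rfl⟩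
        · change rl B (kd x (D + 1) 1 w) a ∈ _
          rw [rl_kd]
          refine Submodule.add_mem _ (Submodule.mem_sup_left ?_) (Submodule.mem_sup_right ?_)
          · exact (kd_one_range D _).1 ⟨_, rfl⟩ a
          · exact ⟨_, rfl⟩
        · exact isEmptyElim b
      · intro h
        have h' : ∀ k, ∃ a ∈ SS x N D, ∃ n : N, a + x D • n = v (kl k) := by
          intro k
          obtain ⟨a, ha, b, ⟨n, hn⟩, hab⟩ := Submodule.mem_sup.1 (h (kl k))
          exact ⟨a, ha, n, by rw [← hab, ← hn]; rfl⟩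
        choose a ha n hn using h'
        obtain ⟨w, hw⟩ := (kd_one_range D a).2 ha
        refine ⟨pp B (w, n), ?_⟩
        refine pp_ext (B := B) ?_ ?_
        · rw [rl_kd, rl_pp, rr_pp, hw]
          funext k
          exact hn k
        · funext k
          exact isEmptyElim k

theorem kd_exact (hreg : ∀ D (n : N), x D • n ∈ SS x N D → n ∈ SS x N D) :
    ∀ (D i : ℕ) (v : KJ D (i + 2) → N), kd x D (i + 1) v = 0 → ∃ w, kd x D (i + 2) w = v
  | 0, i, v, _ => by
      refine ⟨0, ?_⟩
      funext k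
      exact Empty.elim k
  | D + 1, i, v, hv => by
      have h1 : kd x D (i + 1) (rl B v) + x D • rr B v = 0 := by
        rw [← rl_kd, hv, map_zero]
      have h2 : kd x D i (rr B v) = 0 := by
        have : rr B (kd x (D + 1) (i + 1) v) = 0 := by rw [hv, map_zero]
        rw [rr_kd] at this
        exact neg_eq_zero.1 this
      obtain ⟨c, hc⟩ : ∃ c, kd x D (i + 1) c = rr B v := by
        cases i with
        | zero =>
          refine (kd_one_range x D (rr B v)).2 (fun k => ?_)
          apply hreg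
          have h3 : kd x D 1 (-(rl B v)) = x D • rr B v := by
            rw [map_neg]
            exact neg_eq_of_add_eq_zero_right h1
          exact (kd_one_range x D _).1 ⟨_, h3⟩ k
        | succ i => exact kd_exact hreg D i _ h2
      obtain ⟨e, he⟩ := kd_exact hreg D i (rl B v + x D • c) (by
        rw [map_add, map_smul, hc, h1])
      refine ⟨pp B (e, -c), ?_⟩
      refine pp_ext (B := B) ?_ ?_
      · rw [rl_kd, rl_pp, rr_pp, he]
        simp
      · rw [rr_kd, rr_pp, map_neg, hc, neg_neg]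

/-- change of rings -/
theorem kd_change {B' : Type} [CommRing B'] (x' : ℕ → B') [Module B' N]
    (h : ∀ i (n : N), x i • n = x' i • n) :
    ∀ (D i : ℕ) (v : KJ D (i + 1) → N), kd x D i v = kd x' D i v
  | 0, i, v => rfl
  | D + 1, 0, v => rfl
  | D + 1, i + 1, v => by
      refine k_ext ?_ ?_
      · change kd x D (i + 1) (v ∘ kl) + x D • (v ∘ kr) = kd x' D (i + 1) (v ∘ kl) + x' D • (v ∘ kr)
        rw [kd_change x' h D (i + 1)]
        congr 1
        funext k
        exact h _ _
      · change - kd x D i (v ∘ kr) = - kd x' D i (v ∘ kr)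
        rw [kd_change x' h D i]

/-- exactness in degrees ≥ 2 -/
def Ex2 (N : Type) [AddCommGroup N] [Module B N] : Prop :=
  ∀ (D i : ℕ) (v : KJ D (i + 3) → N), kd x D (i + 2) v = 0 → ∃ w, kd x D (i + 3) w = v

theorem ex2_of_reg (hreg : ∀ D (n : N), x D • n ∈ SS x N D → n ∈ SS x N D) : Ex2 x N :=
  fun D i v hv => kd_exact x hreg D (i + 1) v hv

theorem ex2_quot (p : B) (hp : ∀ n : N, p • n = 0 → n = 0)
    (hreg : ∀ D (n : N), x D • n ∈ SS x N D → n ∈ SS x N D) (q : N →ₗ[B] N')
    (hq : Function.Surjective q) (hqp : ∀ n, q n = 0 ↔ ∃ m, p • m = n) : Ex2 x N' := by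
  intro D i v hv
  choose V hV using fun k => hq (v k)
  have hV' : q ∘ V = v := funext hV
  have h1 : ∀ k, ∃ m, p • m = kd x D (i + 2) V k := by
    intro k
    rw [← hqp]
    have := kd_nat x q D (i + 2) V
    rw [hV', hv] at this
    exact (congrFun this k).symm
  choose W hW using h1
  have hW' : p • W = kd x D (i + 2) V := funext hW
  have h2 : kd x D (i + 1) W = 0 := by
    have h3 : p • kd x D (i + 1) W = 0 := by
      rw [← map_smul, hW', kd_comp]
    funext k
    exact hp _ (congrFun h3 k)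
  obtain ⟨c, hc⟩ := kd_exact x hreg D i W h2
  obtain ⟨e, he⟩ := kd_exact x hreg D (i + 1) (V - p • c) (by
    rw [map_sub, map_smul, hc, hW', sub_self])
  refine ⟨q ∘ e, ?_⟩
  rw [kd_nat, he]
  funext k
  simp only [Function.comp_apply, Pi.sub_apply, Pi.smul_apply, map_sub]
  rw [(hqp (p • c k)).2 ⟨_, rfl⟩, sub_zero]
  exact hV k

theorem ex2_dfinsupp {ι : Type} (M : ι → Type) [∀ i, AddCommGroup (M i)] [∀ i, Module B (M i)]
    (h : ∀ i, Ex2 x (M i)) : Ex2 x (Π₀ i, M i) := by
  classical
  intro D i v hv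
  have h1 : ∀ j, ∃ w : KJ D (i + 4) → M j, kd x D (i + 3) w = (DFinsupp.lapply (R := B) j) ∘ v := by
    intro j
    apply h j D i
    rw [kd_nat, hv]
    rfl
  have h2 : ∀ j, ∃ w : KJ D (i + 4) → M j, kd x D (i + 3) w = (DFinsupp.lapply (R := B) j) ∘ v ∧
      ((DFinsupp.lapply (R := B) j) ∘ v = 0 → w = 0) := by
    intro j
    by_cases hj : (DFinsupp.lapply (R := B) j) ∘ v = 0
    · exact ⟨0, by rw [map_zero, hj], fun _ => rfl⟩
    · obtain ⟨w, hw⟩ := h1 j
      exact ⟨w, hw, fun h => absurd h hj⟩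
  choose w hw hw0 using h2
  let S : Finset ι := Finset.univ.biUnion (fun k => DFinsupp.support (v k))
  have hS : ∀ j, j ∉ S → w j = 0 := by
    intro j hj
    apply hw0
    funext k
    by_contra hne
    exact hj (Finset.mem_biUnion.2 ⟨k, Finset.mem_univ _, DFinsupp.mem_support_iff.2 hne⟩)
  let W : KJ D (i + 4) → Π₀ j, M j := fun k => DFinsupp.mk S (fun j => w j k)
  have hW : ∀ j, (DFinsupp.lapply (R := B) j) ∘ W = w j := by
    intro j
    funext k
    simp only [Function.comp_apply, DFinsupp.lapply_apply, W]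
    by_cases hj : j ∈ S
    · rw [DFinsupp.mk_of_mem hj]
    · rw [DFinsupp.mk_of_notMem hj, hS j hj]; rfl
  refine ⟨W, ?_⟩
  funext k
  ext j
  have h3 := kd_nat x (DFinsupp.lapply (R := B) (M := M) j) D (i + 3) W
  rw [hW, hw] at h3
  exact (congrFun h3 k).symm

theorem ex2_prod (h : Ex2 x N) (h' : Ex2 x N') : Ex2 x (N × N') := by
  intro D i v hv
  obtain ⟨w, hw⟩ := h D i (LinearMap.fst B N N' ∘ v) (by rw [kd_nat, hv]; rfl)
  obtain ⟨w', hw'⟩ := h' D i (LinearMap.snd B N N' ∘ v) (by rw [kd_nat, hv]; rfl)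
  refine ⟨fun k => (w k, w' k), ?_⟩
  funext k
  have h1 := kd_nat x (LinearMap.fst B N N') D (i + 3) (fun k => (w k, w' k))
  have h2 := kd_nat x (LinearMap.snd B N N') D (i + 3) (fun k => (w k, w' k))
  have h1' : (LinearMap.fst B N N') ∘ (fun k => (w k, w' k)) = w := rfl
  have h2' : (LinearMap.snd B N N') ∘ (fun k => (w k, w' k)) = w' := rfl
  rw [h1', hw] at h1
  rw [h2', hw'] at h2
  exact Prod.ext (congrFun h1 k).symm (congrFun h2 k).symm

end

section final

variable {R : Type} [CommRing R] (x : ℕ → R)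

theorem pd_step (h : Ex2 x R) (D i j : ℕ)
    (hM : HasProjectiveDimensionLE (ModuleCat.of R ((KJ D (i + 2) → R) ⧸ LinearMap.range (kd x (N := R) D (i + 2)))) (j + 1)) :
    HasProjectiveDimensionLE (ModuleCat.of R ((KJ D (i + 3) → R) ⧸ LinearMap.range (kd x (N := R) D (i + 3)))) j := by
  let f : ((KJ D (i + 3) → R) ⧸ LinearMap.range (kd x (N := R) D (i + 3))) →ₗ[R] (KJ D (i + 2) → R) :=
    Submodule.liftQ _ (kd x (N := R) D (i + 2)) (by
      rintro _ ⟨v, rfl⟩
      exact kd_comp x D (i + 2) v)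
  let g : (KJ D (i + 2) → R) →ₗ[R] ((KJ D (i + 2) → R) ⧸ LinearMap.range (kd x (N := R) D (i + 2))) :=
    Submodule.mkQ _
  have hexact : Function.Exact f g := by
    rw [LinearMap.exact_iff]
    rw [Submodule.ker_mkQ, Submodule.range_liftQ]
  have hinj : Function.Injective f := by
    rw [← LinearMap.ker_eq_bot, Submodule.ker_liftQ_eq_bot']
    ext v
    constructor
    · rintro ⟨w, rfl⟩
      exact kd_comp x D (i + 2) w
    · intro hv
      exact h D i v hv
  have hsurj : Function.Surjective g := Submodule.mkQ_surjective _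
  have hS := ModuleCat.shortComplex_shortExact (ModuleCat.shortComplexOfCompEqZero f g hexact.linearMap_comp_eq_zero)
    hexact hinj hsurj
  have hproj : Projective (ModuleCat.of R (KJ D (i + 2) → R)) := by
    rw [← IsProjective.iff_projective]
    infer_instance
  exact (hS.hasProjectiveDimensionLT_X₃_iff j hproj).1 hM

theorem phi_kd {F : Type} [CommRing F] (φ : R →+* F) (hφ : ∀ i, φ (x i) = 0) :
    ∀ (D i : ℕ) (v : KJ D (i + 1) → R) (k : KJ D i), φ (kd x D i v k) = 0
  | 0, i, v, k => by simp [kd_zero]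
  | D + 1, 0, v, k => isEmptyElim k
  | D + 1, i + 1, v, k => by
      rcases k_cases k with ⟨a, rfl⟩ | ⟨b, rfl⟩
      · change φ (rl R (kd x (D + 1) (i + 1) v) a) = 0
        rw [rl_kd]
        simp only [Pi.add_apply, Pi.smul_apply, smul_eq_mul, map_add, map_mul, hφ, zero_mul, add_zero]
        exact phi_kd φ hφ D (i + 1) _ a
      · change φ (rr R (kd x (D + 1) (i + 1) v) b) = 0
        rw [rr_kd]
        simp only [Pi.neg_apply, map_neg, neg_eq_zero]
        exact phi_kd φ hφ D i _ b

theorem not_projective (h : Ex2 x R) {F : Type} [CommRing F] [Nontrivial F] (φ : R →+* F)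
    (hφ : ∀ i, φ (x i) = 0) (d : ℕ) :
    ¬ HasProjectiveDimensionLE (ModuleCat.of R ((KJ (d + 2) (d + 2) → R) ⧸
      LinearMap.range (kd x (N := R) (d + 2) (d + 2)))) 0 := by
  classical
  intro hp
  have hproj : Module.Projective R ((KJ (d + 2) (d + 2) → R) ⧸
      LinearMap.range (kd x (N := R) (d + 2) (d + 2))) := by
    rw [← projective_iff_hasProjectiveDimensionLE_zero, ← IsProjective.iff_projective] at hp
    exact hp
  obtain ⟨σ, hσ⟩ := Module.projective_lifting_property
    (Submodule.mkQ (LinearMap.range (kd x (N := R) (d + 2) (d + 2)))) LinearMap.id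
    (Submodule.mkQ_surjective _)
  let p := Submodule.mkQ (LinearMap.range (kd x (N := R) (d + 2) (d + 2)))
  let τ : (KJ (d + 2) (d + 2) → R) →ₗ[R] (KJ (d + 2) (d + 2) → R) := LinearMap.id - σ.comp p
  have hτ : ∀ v, ∃ w, kd x (d + 2) (d + 2) w = τ v := by
    intro v
    have : p (τ v) = 0 := by
      simp only [τ, LinearMap.sub_apply, LinearMap.id_apply, map_sub, LinearMap.comp_apply]
      have := LinearMap.congr_fun hσ (p v)
      simp only [LinearMap.comp_apply, LinearMap.id_apply] at this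
      rw [this, sub_self]
    exact (Submodule.Quotient.mk_eq_zero _).1 this
  obtain ⟨k⟩ := KJ.nonempty (d + 2)
  let u : KJ (d + 2) (d + 3) → R := Pi.single k 1
  let w := kd x (d + 2) (d + 2) u
  have hw : τ w = w := by
    have : p w = 0 := (Submodule.Quotient.mk_eq_zero _).2 ⟨u, rfl⟩
    simp only [τ, LinearMap.sub_apply, LinearMap.id_apply, LinearMap.comp_apply, this, map_zero, sub_zero]
  choose y hy using fun j => hτ (Pi.single j 1)
  have hw2 : w = kd x (d + 2) (d + 2) (∑ j, w j • y j) := by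
    rw [map_sum]
    simp_rw [map_smul, hy, ← map_smul, ← map_sum]
    rw [← hw]
    congr 1
    rw [hw]
    funext j
    simp [Finset.sum_apply, Pi.single_apply]
  have hu : u = ∑ j, w j • y j := by
    have h0 : kd x (d + 2) (d + 2) (u - ∑ j, w j • y j) = 0 := by
      rw [map_sub, ← hw2, sub_self]
    obtain ⟨z, hz⟩ := h (d + 2) d _ h0
    have : IsEmpty (KJ (d + 2) (d + 4)) := KJ.isEmpty _ _ (by omega)
    have hz0 : z = 0 := Subsingleton.elim _ _
    rw [hz0, map_zero] at hz
    exact (sub_eq_zero.1 hz.symm)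
  have h1 : φ (u k) = 0 := by
    rw [hu, Finset.sum_apply, map_sum]
    refine Finset.sum_eq_zero (fun j _ => ?_)
    rw [Pi.smul_apply, smul_eq_mul, map_mul, phi_kd x φ hφ, zero_mul]
  simp [u] at h1

theorem not_pd_le (h : Ex2 x R) {F : Type} [CommRing F] [Nontrivial F] (φ : R →+* F)
    (hφ : ∀ i, φ (x i) = 0) (d : ℕ) :
    ¬ HasProjectiveDimensionLE (ModuleCat.of R ((KJ (d + 2) 2 → R) ⧸
      LinearMap.range (kd x (N := R) (d + 2) 2))) d := by
  intro hp
  have : ∀ i, i ≤ d → HasProjectiveDimensionLE (ModuleCat.of R ((KJ (d + 2) (i + 2) → R) ⧸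
      LinearMap.range (kd x (N := R) (d + 2) (i + 2)))) (d - i) := by
    intro i
    induction i with
    | zero => intro _; exact hp
    | succ i ih =>
      intro hi
      have h1 := ih (by omega)
      have h2 : d - i = (d - (i + 1)) + 1 := by omega
      rw [h2] at h1
      exact pd_step x h (d + 2) i (d - (i + 1)) h1
  have h3 := this d le_rfl
  rw [Nat.sub_self] at h3
  exact not_projective x h φ hφ d h3

theorem finite_res (h : Ex2 x R) (D : ℕ) :
    HasFiniteProjectiveResolution R (ModuleCat.of R ((KJ D 2 → R) ⧸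
      LinearMap.range (kd x (N := R) D 2))) := by
  refine ⟨D, fun i => ModuleCat.of R (KJ D (i + 2) → R), Submodule.mkQ _,
    fun i => kd x D (i + 2), fun i => ⟨?_, ?_⟩, fun i hi => ?_, Submodule.mkQ_surjective _, ?_, fun i => ?_⟩
  · change Module.Finite R (KJ D (i + 2) → R)
    infer_instance
  · change Module.Projective R (KJ D (i + 2) → R)
    infer_instance
  · have : IsEmpty (KJ D (i + 2)) := KJ.isEmpty _ _ (by omega)
    change Subsingleton (KJ D (i + 2) → R)
    infer_instance
  · rw [LinearMap.exact_iff, Submodule.ker_mkQ]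
  · intro v
    constructor
    · intro hv
      obtain ⟨w, hw⟩ := h D i v hv
      exact ⟨w, hw⟩
    · rintro ⟨w, rfl⟩
      exact kd_comp x D (i + 2) w

theorem fPD_eq_top (h : Ex2 x R) {F : Type} [CommRing F] [Nontrivial F] (φ : R →+* F)
    (hφ : ∀ i, φ (x i) = 0) : fPD R = ⊤ := by
  have key : ∀ d : ℕ, ¬ fPD R ≤ (d : WithBot ℕ∞) := by
    intro d hd
    have h1 : projectiveDimension (ModuleCat.of R ((KJ (d + 2) 2 → R) ⧸
      LinearMap.range (kd x (N := R) (d + 2) 2))) ≤ d := by
      refine le_trans ?_ hd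
      exact le_iSup₂_of_le _ (finite_res x h (d + 2)) le_rfl
    rw [projectiveDimension_le_iff] at h1
    exact not_pd_le x h φ hφ d h1
  generalize fPD R = a at key
  induction a with
  | bot => exact absurd bot_le (key 0)
  | coe a =>
    induction a with
    | top => rfl
    | coe a => exact absurd le_rfl (key a)

end final

section example_ring

/-- the polynomial ring in countably many variables -/
abbrev AA := MvPolynomial ℕ ℚ

theorem SS_eq (D : ℕ) : SS (MvPolynomial.X : ℕ → AA) AA D =
    Ideal.span (MvPolynomial.X '' {j : ℕ | j < D} : Set AA) := by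
  induction D with
  | zero =>
    have : {j : ℕ | j < 0} = ∅ := by ext; simp
    rw [this, Set.image_empty, Ideal.span_empty]
    rfl
  | succ D ih =>
    rw [SS, ih]
    have : {j : ℕ | j < D + 1} = insert D {j : ℕ | j < D} := by
      ext j; simp only [Set.mem_ofPred_eq, Set.mem_insert_iff]; omega
    rw [this, Set.image_insert_eq, Ideal.span_insert, sup_comm]
    congr 1
    ext f
    rw [Ideal.mem_span_singleton']
    constructor
    · rintro ⟨a, rfl⟩
      exact ⟨a, by simp [mul_comm]⟩
    · rintro ⟨a, rfl⟩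
      exact ⟨a, by simp [mul_comm]⟩

theorem X_reg (D : ℕ) (f : AA) (hf : (MvPolynomial.X D : AA) • f ∈ SS (MvPolynomial.X : ℕ → AA) AA D) :
    f ∈ SS (MvPolynomial.X : ℕ → AA) AA D := by
  rw [SS_eq, MvPolynomial.mem_ideal_span_X_image] at hf ⊢
  intro m hm
  obtain ⟨i, hi, hmi⟩ := hf (m + Finsupp.single D 1) (by
    rw [MvPolynomial.mem_support_iff, smul_eq_mul, mul_comm, MvPolynomial.coeff_mul_X]
    exact MvPolynomial.mem_support_iff.1 hm)
  refine ⟨i, hi, ?_⟩
  have hne : i ≠ D := ne_of_lt hi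
  simpa [Finsupp.single_apply, hne.symm] using hmi

theorem ex2_RR : Ex2 (fun i => (TrivSqZeroExt.inl (MvPolynomial.X i) : RR AA)) (RR AA) := by
  have h1 : ∀ p : {p : AA // p ≠ 0}, Ex2 (MvPolynomial.X : ℕ → AA) (AA ⧸ Ideal.span {(p : AA)}) := by
    intro p
    refine ex2_quot (MvPolynomial.X : ℕ → AA) (N := AA) p.1 ?_ X_reg
      (Submodule.mkQ (Ideal.span {(p : AA)})) (Submodule.mkQ_surjective _) ?_
    · intro n hn
      exact (mul_eq_zero.1 hn).resolve_left p.2
    · intro n
      rw [Submodule.mkQ_apply, Submodule.Quotient.mk_eq_zero, Ideal.mem_span_singleton']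
      constructor
      · rintro ⟨a, rfl⟩; exact ⟨a, by rw [smul_eq_mul, mul_comm]⟩
      · rintro ⟨a, rfl⟩; exact ⟨a, by rw [smul_eq_mul, mul_comm]⟩
  have h2 : Ex2 (MvPolynomial.X : ℕ → AA) (EMod AA) := ex2_dfinsupp _ _ (fun i => h1 i.1)
  have h3 : Ex2 (MvPolynomial.X : ℕ → AA) (AA × EMod AA) :=
    ex2_prod _ (ex2_of_reg _ X_reg) h2
  have h4 : Ex2 (MvPolynomial.X : ℕ → AA) (RR AA) := h3
  intro D i v hv
  have hch : ∀ i (n : RR AA), (MvPolynomial.X i : AA) • n =
      (TrivSqZeroExt.inl (MvPolynomial.X i) : RR AA) • n := by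
    intro i n
    rw [smul_eq_mul, TrivSqZeroExt.inl_mul_eq_smul]
  have hc := kd_change (MvPolynomial.X : ℕ → AA) (N := RR AA)
    (fun i => (TrivSqZeroExt.inl (MvPolynomial.X i) : RR AA)) hch
  rw [← hc] at hv
  obtain ⟨w, hw⟩ := h4 D i v hv
  exact ⟨w, by rw [← hc]; exact hw⟩

end example_ring

/-- There is one commutative ring `R` that is a weak `(n,d)`-ring in the sense of Mahdou for all
`n ≥ 2` and all `d ≥ 0`, and whose small finitistic dimension is infinite. -/
theorem result : ∃ (R : Type) (_ : CommRing R),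
    (∀ n d : ℕ, 2 ≤ n → IsMahdouWeak n d R) ∧ fPD R = ⊤ := by
  refine ⟨RR AA, inferInstance, fun n d hn I hI => ?_, ?_⟩
  · have hfp := fp_of_nPresented hn I hI
    have hproj : Module.Projective (RR AA) (RR AA ⧸ I) := by
      rcases ideal_trivial_of_fp I hfp with rfl | rfl
      · exact Module.Projective.of_equiv (Submodule.quotEquivOfEqBot (⊥ : Ideal (RR AA)) rfl).symm
      · have : Subsingleton (RR AA ⧸ (⊤ : Ideal (RR AA))) := Ideal.Quotient.subsingleton_iff.2 rfl
        infer_instance
    have h1 : Projective (ModuleCat.of (RR AA) (RR AA ⧸ I)) := by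
      rw [← IsProjective.iff_projective]
      exact hproj
    have h2 : HasProjectiveDimensionLE (ModuleCat.of (RR AA) (RR AA ⧸ I)) 0 :=
      (projective_iff_hasProjectiveDimensionLE_zero _).1 h1
    exact hasProjectiveDimensionLT_of_ge _ 1 _ (by omega)
  · exact fPD_eq_top _ ex2_RR
      ((MvPolynomial.constantCoeff : AA →+* ℚ).comp (TrivSqZeroExt.fstHom AA AA (EMod AA)).toRingHom)
      (fun i => by simp)

end Pool.Agent.Results.MP_682377_al.WeakNDUnbounded
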